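import Pool.Agent.H11.NS.Targets

/-!
# Module QC of the board ns_modules (MP_9b2842_al)
-/

set_option autoImplicit false

open Equiv (Perm)

namespace Pool.Agent.H66.NS.QC

open Pool.Agent.H11.NS

theorem pf_qc : T_CL → T_QC := by
  intro hCL L _ _ Ω _ _ φ hφ P K hP hK hPK ℓ hℓ hℓ3 hPl hKl a h ha hah hcent hsa hsh t t' ht ht'
    hc hc' hd
  haveI := hK
  haveI := hP
  have hKker : K ≤ φ.ker := hPK ▸ le_sup_right
  -- a subgroup of order prime to `ℓ` meets an `ℓ`-group trivially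
  have hdis : ∀ y ∈ P, y ∈ K → y = 1 := by
    intro y hyP hyK
    obtain ⟨k, hk⟩ := hPl ⟨y, hyP⟩
    have hk' : y ^ (ℓ ^ k) = 1 := by
      have := congrArg Subtype.val hk
      simpa using this
    have h1 : orderOf y ∣ ℓ ^ k := orderOf_dvd_of_pow_eq_one hk'
    have h2 : orderOf y ∣ Nat.card K := Subgroup.orderOf_dvd_natCard K hyK
    have hcop : Nat.Coprime (ℓ ^ k) (Nat.card K) :=
      Nat.Coprime.pow_left k ((Nat.Prime.coprime_iff_not_dvd hℓ).2 hKl)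
    have h3 : orderOf y ∣ 1 := by
      have := Nat.dvd_gcd h1 h2
      rwa [hcop.gcd_eq_one] at this
    exact orderOf_eq_one_iff.1 (Nat.dvd_one.1 h3)
  let ψ : L ⧸ K →* alternatingGroup Ω := QuotientGroup.lift K φ hKker
  have hψmk : ∀ x : L, ψ (x : L ⧸ K) = φ x := fun x => rfl
  have hψ : Function.Surjective ψ := by
    intro y
    obtain ⟨x, rfl⟩ := hφ y
    exact ⟨(x : L ⧸ K), rfl⟩
  have hker : ψ.ker = P.map (QuotientGroup.mk' K) := by
    have h1 : ψ.ker = φ.ker.map (QuotientGroup.mk' K) := QuotientGroup.ker_lift K φ hKker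
    rw [h1, ← hPK, Subgroup.map_sup]
    have h2 : K.map (QuotientGroup.mk' K) = ⊥ := by
      rw [eq_bot_iff]
      rintro _ ⟨x, hx, rfl⟩
      exact (QuotientGroup.eq_one_iff x).2 hx
    rw [h2, sup_bot_eq]
  have hpg : IsPGroup ℓ ψ.ker := by
    rw [hker]
    exact hPl.map _
  have ha' : (a : L ⧸ K) ^ 3 = 1 := by
    rw [← QuotientGroup.mk_pow, ha, QuotientGroup.mk_one]
  have hah' : (a : L ⧸ K) * (h : L ⧸ K) = (h : L ⧸ K) * (a : L ⧸ K) := by
    rw [← QuotientGroup.mk_mul, ← QuotientGroup.mk_mul, hah]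
  have hcent' : ∀ x ∈ ψ.ker, (a : L ⧸ K) * x = x * (a : L ⧸ K) →
      (h : L ⧸ K) * x = x * (h : L ⧸ K) := by
    intro x hx hax
    rw [hker] at hx
    obtain ⟨x, hxP, rfl⟩ := hx
    have hx0 : x ∈ P := hxP
    rw [QuotientGroup.mk'_apply] at hax ⊢
    rw [← QuotientGroup.mk_mul, ← QuotientGroup.mk_mul, QuotientGroup.eq] at hax
    have hz : (a * x)⁻¹ * (x * a) = 1 := by
      refine hdis _ ?_ hax
      have h1 : (a * x)⁻¹ * (x * a) = x⁻¹ * (a⁻¹ * x * a) := by group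
      rw [h1]
      refine P.mul_mem (P.inv_mem hx0) ?_
      have := hP.conj_mem x hx0 a⁻¹
      rwa [inv_inv] at this
    have hax' : a * x = x * a := by
      rw [inv_mul_eq_one] at hz
      exact hz
    rw [← QuotientGroup.mk_mul, ← QuotientGroup.mk_mul, hcent x hx0 hax']
  have hpow : ∀ s : L, (∃ k : ℕ, s ^ (3 ^ k) ∈ K) → ∃ k : ℕ, (s : L ⧸ K) ^ (3 ^ k) = 1 := by
    rintro s ⟨k, hk⟩
    refine ⟨k, ?_⟩
    rw [← QuotientGroup.mk_pow]
    exact (QuotientGroup.eq_one_iff _).2 hk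
  have key := hCL Ω ℓ hℓ hℓ3 (L ⧸ K) ψ hψ hpg (a : L ⧸ K) (h : L ⧸ K) ha' hah' hcent' hsa hsh
    (t : L ⧸ K) (t' : L ⧸ K) (hpow t ht) (hpow t' ht') hc hc' hd
  rw [← QuotientGroup.eq_one_iff]
  rw [QuotientGroup.mk_mul, QuotientGroup.mk_mul, QuotientGroup.mk_mul, key,
    QuotientGroup.mk_inv, QuotientGroup.mk_inv]
  group

end Pool.Agent.H66.NS.QC
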